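import Pool.Agent.Run7.h623.AE.Main

/-!
# The Atiyah conjecture passes to extensions with amenable left-orderable quotient

Problem `MP_54e5d7_al`. Let `K` be any normal subgroup of the group `G` such that `G / K` is amenable
and left-orderable, and let `F` be any subring of `ℂ`. Every dimension of the kernel of a matrix over
`F[G]` is a limit, from below, of differences of dimensions of kernels of matrices over `F[K]`. If the
dimensions for `K` lie in `(1/d) ℤ`, then so do the dimensions for `G`, and each of them is such a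
difference. The finite subgroups of `G` are those of `K`. So the Atiyah conjecture with coefficients in
`F` passes from `K` to `G`; the group `K` may have torsion. In particular it holds for all extensions
of a finite group by an amenable left-orderable group.

The proof. For a finite set `U` of cosets of `K` let `a(U)` be the dimension over `K` of the kernel
vectors with support in `U`. It is a value for `K`, it is invariant under left translation,
supermodular, and `a(U) / |U|` is at most `v`, the dimension over `G`, and close to `v` for Følner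
sets. A left order cuts `a(U)` into the differences `a(U ∩ [q, ∞)) - a(U ∩ (q, ∞))`, `q ∈ U`, which
increase with `U`; so their supremum is `v`.
-/

set_option autoImplicit false

noncomputable section

open scoped Pointwise

namespace Pool.Agent.Results.MP_54e5d7_al.AmenableOrderableExtensions

/-- The orders of the finite subgroups of `G` are bounded, and `d` is their least common
multiple. -/
def IsLcm (G : Type) [Group G] (d : ℕ) : Prop :=
  (∃ N : ℕ, ∀ H : Subgroup G, Finite H → Nat.card H ≤ N) ∧
    (∀ H : Subgroup G, Finite H → Nat.card H ∣ d) ∧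
    ∀ e : ℕ, (∀ H : Subgroup G, Finite H → Nat.card H ∣ e) → d ∣ e

/-- The kernel of right multiplication by the matrix `A` on `ℓ²(G)^m`. -/
def kernel {G : Type} [Group G] {m n : ℕ} (A : Matrix (Fin m) (Fin n) (G →₀ ℂ)) :
    Set (lp (fun _ : Fin m × G => ℂ) 2) :=
  {x | ∀ (j : Fin n) (g : G),
    ∑ i : Fin m, (A i j).sum (fun h c => x (i, g * h⁻¹) * c) = 0}

open Classical in
/-- The von Neumann dimension of this kernel: the sum over `i` of one minus the squared distance
from the basis vector at `(i, 1)` to the kernel. -/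
def kerDim {G : Type} [Group G] {m n : ℕ} (A : Matrix (Fin m) (Fin n) (G →₀ ℂ)) : ℝ :=
  ∑ i : Fin m, (1 - (Metric.infDist
    (lp.single 2 (i, (1 : G)) (1 : ℂ) : lp (fun _ : Fin m × G => ℂ) 2) (kernel A)) ^ 2)

/-- The dimensions of the kernels of the matrices over `F[G]`. -/
def Values (F : Subring ℂ) (G : Type) [Group G] : Set ℝ :=
  {v | ∃ (m n : ℕ) (A : Matrix (Fin m) (Fin n) (G →₀ ℂ)), (∀ i j g, A i j g ∈ F) ∧ kerDim A = v}

/-- The Atiyah conjecture for `G` with coefficients in `F`. -/
def Atiyah (F : Subring ℂ) (G : Type) [Group G] : Prop :=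
  ∀ d : ℕ, IsLcm G d → ∀ (m n : ℕ) (A : Matrix (Fin m) (Fin n) (G →₀ ℂ)),
    (∀ i j g, A i j g ∈ F) → ∃ z : ℤ, (d : ℝ) * ((n : ℝ) - (m : ℝ) + kerDim A) = z

open Classical in
/-- Følner's condition: amenability. -/
def Amenable (Q : Type) [Group Q] : Prop :=
  ∀ (S : Finset Q) (ε : ℝ), 0 < ε →
    ∃ Φ : Finset Q, Φ.Nonempty ∧ ((Φ * S).card : ℝ) ≤ (1 + ε) * Φ.card

/-- `Q` has a total order which is invariant under left multiplication. -/
def LeftOrderable (Q : Type) [Group Q] : Prop :=
  ∃ _ : LinearOrder Q, ∀ x y z : Q, x < y → z * x < z * y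

open Pool.Agent.W656.VA in
theorem mem_values {F : Subring ℂ} {G : Type} [Group G] {v : ℝ} :
    v ∈ Values F G ↔ Val F G v := by
  constructor
  · rintro ⟨m, n, A, hA, rfl⟩
    exact val_kerDim A hA
  · intro h
    obtain ⟨m, n, A, hA, h⟩ := exists_kerDim h
    exact ⟨m, n, A, hA, h⟩

/-- finite subgroups lie in the kernel of a homomorphism to a left-orderable group -/
theorem finite_le {G : Type} [Group G] (K : Subgroup G) [K.Normal] (hO : LeftOrderable (G ⧸ K))
    (H : Subgroup G) (hH : Finite H) : H ≤ K := by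
  obtain ⟨_, hl⟩ := hO
  intro g hg
  rw [← QuotientGroup.eq_one_iff]
  obtain ⟨k, hk, hgk'⟩ := isOfFinOrder_iff_pow_eq_one.1 (isOfFinOrder_of_finite (⟨g, hg⟩ : H))
  have hgk : g ^ k = 1 := congrArg Subtype.val hgk'
  set q : G ⧸ K := (g : G ⧸ K) with hq
  have hqk : q ^ k = 1 := by
    rw [hq, ← QuotientGroup.mk_pow, hgk]
    rfl
  by_contra hne
  rcases lt_or_gt_of_ne hne with hlt | hlt
  · have h1 : ∀ l : ℕ, 0 < l → q ^ l < 1 := by
      intro l hl0
      induction l with
      | zero => exact absurd hl0 (lt_irrefl 0)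
      | succ l ih =>
        rcases Nat.eq_zero_or_pos l with rfl | h0
        · simpa using hlt
        · have := hl _ _ (q ^ l) hlt
          rw [mul_one, ← pow_succ] at this
          exact this.trans (ih h0)
    have h2 := h1 k hk
    rw [hqk] at h2
    exact lt_irrefl _ h2
  · have h1 : ∀ l : ℕ, 0 < l → 1 < q ^ l := by
      intro l hl0
      induction l with
      | zero => exact absurd hl0 (lt_irrefl 0)
      | succ l ih =>
        rcases Nat.eq_zero_or_pos l with rfl | h0
        · simpa using hlt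
        · have := hl _ _ (q ^ l) hlt
          rw [mul_one, ← pow_succ] at this
          exact (ih h0).trans this
    have h2 := h1 k hk
    rw [hqk] at h2
    exact lt_irrefl _ h2

theorem card_map {G : Type} [Group G] (K : Subgroup G) (H : Subgroup K) :
    Nat.card (H.map K.subtype) = Nat.card H :=
  (Nat.card_congr (H.equivMapOfInjective K.subtype K.subtype_injective).toEquiv).symm

theorem finite_map {G : Type} [Group G] (K : Subgroup G) (H : Subgroup K) (hH : Finite H) :
    Finite (H.map K.subtype) :=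
  Finite.of_equiv _ (H.equivMapOfInjective K.subtype K.subtype_injective).toEquiv

theorem card_sub {G : Type} [Group G] (K : Subgroup G) (H : Subgroup G) (h : H ≤ K) :
    Nat.card (H.subgroupOf K) = Nat.card H :=
  Nat.card_congr (Subgroup.subgroupOfEquivOfLe h).toEquiv

theorem finite_sub {G : Type} [Group G] (K : Subgroup G) (H : Subgroup G) (h : H ≤ K)
    (hH : Finite H) : Finite (H.subgroupOf K) :=
  Finite.of_equiv _ (Subgroup.subgroupOfEquivOfLe h).symm.toEquiv

theorem isLcm_iff {G : Type} [Group G] (K : Subgroup G) [K.Normal] (hO : LeftOrderable (G ⧸ K))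
    (d : ℕ) : IsLcm G d ↔ IsLcm K d := by
  have hle := finite_le K hO
  constructor
  · rintro ⟨⟨N, hN⟩, h1, h2⟩
    refine ⟨⟨N, fun H hH => ?_⟩, fun H hH => ?_, fun e he => h2 e fun H hH => ?_⟩
    · rw [← card_map K H]
      exact hN _ (finite_map K H hH)
    · rw [← card_map K H]
      exact h1 _ (finite_map K H hH)
    · rw [← card_sub K H (hle H hH)]
      exact he _ (finite_sub K H (hle H hH) hH)
  · rintro ⟨⟨N, hN⟩, h1, h2⟩
    refine ⟨⟨N, fun H hH => ?_⟩, fun H hH => ?_, fun e he => h2 e fun H hH => ?_⟩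
    · rw [← card_sub K H (hle H hH)]
      exact hN _ (finite_sub K H (hle H hH) hH)
    · rw [← card_sub K H (hle H hH)]
      exact h1 _ (finite_sub K H (hle H hH) hH)
    · rw [← card_map K H]
      exact he _ (finite_map K H hH)

theorem isLcm_finite {K : Type} [Group K] [Finite K] : IsLcm K (Nat.card K) := by
  refine ⟨⟨Nat.card K, fun H _ => ?_⟩, fun H _ => H.card_subgroup_dvd_card, fun e he => ?_⟩
  · exact Nat.le_of_dvd Nat.card_pos H.card_subgroup_dvd_card
  · have := he ⊤ inferInstance
    rwa [Subgroup.card_top] at this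

theorem isLcm_pos {K : Type} [Group K] {d : ℕ} (h : IsLcm K d) : 0 < d := by
  obtain ⟨⟨N, hN⟩, h1, h2⟩ := h
  have h3 : d ∣ N.factorial := by
    apply h2
    intro H hH
    exact Nat.dvd_factorial Nat.card_pos (hN H hH)
  exact Nat.pos_of_dvd_of_pos h3 (Nat.factorial_pos N)

theorem shift_int {d m n : ℕ} {v : ℝ} :
    (∃ z : ℤ, (d : ℝ) * ((n : ℝ) - (m : ℝ) + v) = z) ↔ ∃ z : ℤ, (d : ℝ) * v = z := by
  constructor
  · rintro ⟨z, hz⟩
    refine ⟨z - d * ((n : ℤ) - m), ?_⟩
    push_cast
    rw [← hz]
    ring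
  · rintro ⟨z, hz⟩
    refine ⟨z + d * ((n : ℤ) - m), ?_⟩
    push_cast
    rw [← hz]
    ring

/-- Let `K` be a normal subgroup of `G` such that `G / K` is amenable and left-orderable, and let
`F` be a subring of `ℂ`.

1. Every kernel dimension over `F[G]` is a limit from below of differences of kernel dimensions
   over `F[K]`.
2. If the kernel dimensions over `F[K]` lie in `(1/d) ℤ`, then so do those over `F[G]`, and each of
   them is a difference of two kernel dimensions over `F[K]`.
3. The orders of the finite subgroups of `G` and of `K` have the same bounds and the same least common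
   multiple.
4. The Atiyah conjecture with coefficients in `F` passes from `K` to `G`.
5. If `K` is finite, then the least common multiple is `|K|` and the Atiyah conjecture with
   coefficients in `F` holds for `G`. -/
theorem result {G : Type} [Group G] (K : Subgroup G) [K.Normal] (hA : Amenable (G ⧸ K))
    (hO : LeftOrderable (G ⧸ K)) (F : Subring ℂ) :
    (∀ v ∈ Values F G, ∀ ε : ℝ, 0 < ε →
      ∃ x ∈ Values F K, ∃ y ∈ Values F K, x - y ≤ v ∧ v ≤ x - y + ε) ∧
    (∀ d : ℕ, 0 < d → (∀ x ∈ Values F K, ∃ z : ℤ, (d : ℝ) * x = z) →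
      ∀ v ∈ Values F G, (∃ z : ℤ, (d : ℝ) * v = z) ∧
        ∃ x ∈ Values F K, ∃ y ∈ Values F K, v = x - y) ∧
    (∀ d : ℕ, IsLcm G d ↔ IsLcm K d) ∧
    (Atiyah F K → Atiyah F G) ∧
    (Finite K → IsLcm G (Nat.card K) ∧ Atiyah F G) := by
  have hF : Pool.Agent.TH714.PF.Fol (G ⧸ K) := hA
  have h2 : ∀ d : ℕ, 0 < d → (∀ x ∈ Values F K, ∃ z : ℤ, (d : ℝ) * x = z) →
      ∀ v ∈ Values F G, (∃ z : ℤ, (d : ℝ) * v = z) ∧
        ∃ x ∈ Values F K, ∃ y ∈ Values F K, v = x - y := by
    intro d hd hK v hv
    obtain ⟨h1, x, y, hx, hy, h⟩ := Run7.h623.AE.ext_int K hF hO (R := F) d hd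
      (fun x hx => hK x (mem_values.2 hx)) (mem_values.1 hv)
    exact ⟨h1, x, mem_values.2 hx, y, mem_values.2 hy, h⟩
  have h4 : ∀ d : ℕ, IsLcm G d → (∀ x ∈ Values F K, ∃ z : ℤ, (d : ℝ) * x = z) →
      ∀ (m n : ℕ) (A : Matrix (Fin m) (Fin n) (G →₀ ℂ)),
    (∀ i j g, A i j g ∈ F) → ∃ z : ℤ, (d : ℝ) * ((n : ℝ) - (m : ℝ) + kerDim A) = z := by
    intro d hd hK m n A hA
    rw [shift_int]
    exact (h2 d (isLcm_pos hd) hK _ ⟨m, n, A, hA, rfl⟩).1
  refine ⟨?_, h2, isLcm_iff K hO, ?_, ?_⟩
  · intro v hv ε hε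
    obtain ⟨x, y, hx, hy, h1, h2⟩ :=
      Run7.h623.AE.ext_val K hF hO (R := F) (mem_values.1 hv) ε hε
    exact ⟨x, mem_values.2 hx, y, mem_values.2 hy, h1, by linarith⟩
  · intro hK d hd
    apply h4 d hd
    rintro x ⟨m, n, A, hA, rfl⟩
    rw [← shift_int (m := m) (n := n)]
    exact hK d ((isLcm_iff K hO d).1 hd) m n A hA
  · intro hK
    have h5 : IsLcm G (Nat.card K) := (isLcm_iff K hO _).2 isLcm_finite
    refine ⟨h5, fun d hd => h4 d hd ?_⟩
    intro x hx
    obtain ⟨z, hz⟩ := Run7.h623.AE.int_finite (mem_values.1 hx)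
    obtain ⟨e, he⟩ := h5.2.2 d hd.2.1
    refine ⟨e * z, ?_⟩
    rw [he]
    push_cast
    rw [← hz]
    ring

end Pool.Agent.Results.MP_54e5d7_al.AmenableOrderableExtensions
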