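import Pool.Agent.Run7.h623.AtStair

/-!
# The Atiyah conjecture for cyclic modules over finite central extensions of left-orderable groups

Problem `MP_54e5d7_al`. Let `Z` be a finite central subgroup of the group `G` such that `G / Z` is
left-orderable; more generally let `G` act by order automorphisms on a totally ordered set with a
point the stabilizer of which is `Z`. Then all finite subgroups of `G` are contained in `Z`, and the
least common multiple of their orders is `|Z|`. The complex group ring of `G` is the product of its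
components at the characters `χ` of `Z` (twisted group rings of `G / Z`). For a matrix `A` over the
group ring let `A_χ` be its component.

The kernel of right multiplication by `A` on `l2(G)^m` has dimension at least
`m - ∑ min(rows of A_χ, columns of A_χ) / |Z|`, where the nonzero rows and columns are counted, and at
most `m - ∑ t_χ / |Z|` if `A_χ` contains a staircase of size `t_χ` (a triangular pattern with nonzero
diagonal entries, the entries of which below the diagonal are zero). So the dimension is known and
the Atiyah conjecture holds for `A`, if each component `A_χ` contains a staircase of the size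
`min(rows, columns)`. In particular it holds for all matrices with one row or one column: their
kernels have dimension `m - s / |Z|`, where `s` is the number of the characters `χ` with
`A_χ ≠ 0`. So the conjecture holds for all modules `ℂG / ℂG α`, `ℂG / I`, `I` a finitely generated left
ideal.

For `Z = 1` and one row or column this is Linnell's theorem that `x α ≠ 0` for nonzero `α` in the
group ring and nonzero square-summable `x`, if `G` is left-orderable. The starting library has this
by leading matrices (`N309.LO`), with the components at the characters of a central subgroup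
(`key_iso`, `vd_isoS`), and the bounds `central_upper`, `central_lower_range` for the number of the
characters with nonzero component, which no file in its results folders uses.
-/

set_option autoImplicit false

universe u v

namespace Pool.Agent.Results.MP_54e5d7_al.CentralExtensions

open Pool.Agent.W649.ZL Pool.Agent.N309.LO Run7.h623.CS

/-- The kernel of right multiplication by the matrix `A` over the complex group ring on row vectors
of length `m` over `l2(G)`: all square-summable `x` with `x A = 0`. -/
def kernel {G : Type u} [Group G] {m n : ℕ} (A : Matrix (Fin m) (Fin n) (G →₀ ℂ)) :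
    Set (lp (fun _ : Fin m × G => ℂ) 2) :=
  {x | ∀ (j : Fin n) (g : G),
    ∑ k : Fin m, ∑ h ∈ (A k j).support, x (k, g * h⁻¹) * A k j h = 0}

open Classical in
/-- The von Neumann dimension of that kernel: the sum over `i` of one minus the square of the
distance from the basis vector at `(i, 1)` to the kernel. -/
noncomputable def kerDim {G : Type u} [Group G] {m n : ℕ}
    (A : Matrix (Fin m) (Fin n) (G →₀ ℂ)) : ℝ :=
  ∑ i : Fin m, (1 - Metric.infDist
    (lp.single (E := fun _ : Fin m × G => ℂ) 2 (i, (1 : G)) (1 : ℂ)) (kernel A) ^ 2)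

/-- The component of `α` at the character `χ` of the subgroup `Z` (times the order of `Z`). -/
noncomputable def part {G : Type u} [Group G] (Z : Subgroup G) (χ : Z →* ℂ) (α : G →₀ ℂ)
    (g : G) : ℂ :=
  ∑ᶠ z : Z, χ z * α (g * z)

/-- The number of the rows of `A` with an entry with nonzero component at `χ`. -/
noncomputable def rows {G : Type u} [Group G] (Z : Subgroup G) {m n : ℕ}
    (A : Matrix (Fin m) (Fin n) (G →₀ ℂ)) (χ : Z →* ℂ) : ℕ :=
  Nat.card {i : Fin m // ∃ j, part Z χ (A i j) ≠ 0}

/-- The number of the columns of `A` with an entry with nonzero component at `χ`. -/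
noncomputable def columns {G : Type u} [Group G] (Z : Subgroup G) {m n : ℕ}
    (A : Matrix (Fin m) (Fin n) (G →₀ ℂ)) (χ : Z →* ℂ) : ℕ :=
  Nat.card {j : Fin n // ∃ i, part Z χ (A i j) ≠ 0}

/-- The component of `A` at `χ` contains a staircase of size `t`: places `(i 0, j 0)`, ...,
`(i (t - 1), j (t - 1))` with nonzero components such that the components at `(i s', j s)` are zero
for `s < s'`. -/
def Staircase {G : Type u} [Group G] (Z : Subgroup G) {m n : ℕ}
    (A : Matrix (Fin m) (Fin n) (G →₀ ℂ)) (χ : Z →* ℂ) (t : ℕ) : Prop :=
  ∃ (i : Fin t → Fin m) (j : Fin t → Fin n), (∀ s, part Z χ (A (i s) (j s)) ≠ 0) ∧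
    ∀ s s', s < s' → part Z χ (A (i s') (j s)) = 0

theorem kerDim_eq {G : Type u} [Group G] {m n : ℕ} (A : Matrix (Fin m) (Fin n) (G →₀ ℂ)) :
    kerDim A = kerDimM (G := G) A := by
  unfold kerDim kerDimM
  congr!

section conv
variable {G : Type u} [Group G] (Z : Subgroup G)

/-- the commutative group structure -/
abbrev cg (hZ : Z ≤ Subgroup.center G) : CommGroup Z :=
  { (inferInstance : Group Z) with
    mul_comm := fun a b => Subtype.ext ((Subgroup.mem_center_iff.1 (hZ b.2) (a : G))) }

/-- characters and additive characters -/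
def chE (hZ : Z ≤ Subgroup.center G) : @Du Z (cg Z hZ) ≃ (Z →* ℂ) :=
  let _ : CommGroup Z := cg Z hZ
  { toFun := fun χ =>
      { toFun := fun z => ch χ z
        map_one' := ch_one χ
        map_mul' := ch_mul χ }
    invFun := fun f =>
      { toFun := fun a => f (Additive.toMul a)
        map_zero_eq_one' := f.map_one
        map_add_eq_mul' := fun a b => f.map_mul (Additive.toMul a) (Additive.toMul b) }
    left_inv := fun χ => by
      ext a
      rfl
    right_inv := fun f => by
      ext a
      rfl }

theorem part_eq (hZ : Z ≤ Subgroup.center G) [Fintype Z] (α : G →₀ ℂ) (g : G)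
    (χ : @Du Z (cg Z hZ)) :
    part Z (chE Z hZ χ) α g = @cp G _ Z (cg Z hZ) _ Z.subtype χ α g := by
  let _ : CommGroup Z := cg Z hZ
  have h := cp_apply (G := G) Z.subtype χ α g
  refine Eq.trans ?_ h.symm
  unfold part
  rw [finsum_eq_sum_of_fintype]
  rfl

theorem part_ne (hZ : Z ≤ Subgroup.center G) [Fintype Z] (α : G →₀ ℂ)
    (χ : @Du Z (cg Z hZ)) :
    part Z (chE Z hZ χ) α ≠ 0 ↔ @cp G _ Z (cg Z hZ) _ Z.subtype χ α ≠ 0 := by
  rw [ne_eq, ne_eq, not_iff_not]
  constructor
  · intro h
    ext g
    rw [← part_eq Z hZ α g χ, h]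
    rfl
  · intro h
    funext g
    rw [part_eq Z hZ α g χ, h]
    rfl

end conv

/-- Let `Z` be a finite central subgroup of `G` and let `G` act by order automorphisms on a totally
ordered set `X` with a point `b` the stabilizer of which is `Z` (for example, `G / Z` is
left-orderable). Let `A` be an `m × n` matrix over the complex group ring.

All finite subgroups of `G` are contained in `Z`. The kernel of right multiplication by `A` has
dimension at most `m - ∑ t χ / |Z|`, if the components of `A` at the characters `χ` of `Z` contain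
staircases of size `t χ`, and at least `m - ∑ min (rows) (columns) / |Z|`. If the components contain
staircases of the size `min (rows) (columns)`, then the dimension is known and `d (n - m + dim)` is
an integer for all `d` that are divisible by the orders of the finite subgroups. The last condition
holds for all matrices with one row or one column, and then the dimension is `m - s / |Z|`, where `s`
is the number of the characters with nonzero component. -/
theorem result {G : Type u} [Group G] (Z : Subgroup G) [Finite Z] (hZ : Z ≤ Subgroup.center G)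
    {X : Type v} [MulAction G X] [LinearOrder X]
    (hX : ∀ (g : G) (x y : X), x ≤ y → g • x ≤ g • y) (b : X) (hb : ∀ g : G, g • b = b ↔ g ∈ Z)
    {m n : ℕ} (A : Matrix (Fin m) (Fin n) (G →₀ ℂ)) :
    (∀ H : Subgroup G, Finite H → H ≤ Z) ∧
    (∀ t : (Z →* ℂ) → ℕ, (∀ χ, Staircase Z A χ (t χ)) →
      kerDim A ≤ (m : ℝ) - ((∑ᶠ χ, t χ : ℕ) : ℝ) / Nat.card Z) ∧
    ((m : ℝ) - ((∑ᶠ χ, min (rows Z A χ) (columns Z A χ) : ℕ) : ℝ) / Nat.card Z ≤ kerDim A) ∧
    ((∀ χ, Staircase Z A χ (min (rows Z A χ) (columns Z A χ))) →
      kerDim A = (m : ℝ) - ((∑ᶠ χ, min (rows Z A χ) (columns Z A χ) : ℕ) : ℝ) / Nat.card Z ∧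
      ∀ d : ℕ, (∀ H : Subgroup G, Finite H → Nat.card H ∣ d) →
        ∃ z : ℤ, (d : ℝ) * ((n : ℝ) - (m : ℝ) + kerDim A) = z) ∧
    (m = 1 ∨ n = 1 →
      (∀ χ, Staircase Z A χ (min (rows Z A χ) (columns Z A χ))) ∧
      kerDim A = (m : ℝ) - (Nat.card {χ : Z →* ℂ // ∃ i j, part Z χ (A i j) ≠ 0} : ℝ) / Nat.card Z) := by
  classical
  let _ : CommGroup Z := cg Z hZ
  have : Fintype Z := Fintype.ofFinite Z
  have hcard : Nat.card Z = Fintype.card Z := Nat.card_eq_fintype_card
  have hc : ∀ (z : Z) (g : G), Z.subtype z * g = g * Z.subtype z := fun z g =>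
    (Subgroup.mem_center_iff.1 (hZ z.2) g).symm
  have hinj : Function.Injective Z.subtype := Z.subtype_injective
  have hstab : ∀ g : G, g • b = b ↔ g ∈ Set.range Z.subtype := by
    intro g
    rw [hb]
    constructor
    · intro h
      exact ⟨⟨g, h⟩, rfl⟩
    · rintro ⟨z, rfl⟩
      exact z.2
  have hfin : Fintype (Z →* ℂ) := Fintype.ofEquiv _ (chE Z hZ)
  have hsum : ∀ f : (Z →* ℂ) → ℕ, (∑ᶠ χ, f χ) = ∑ χ : Du Z, f (chE Z hZ χ) := by
    intro f
    rw [finsum_eq_sum_of_fintype]
    exact (Fintype.sum_equiv (chE Z hZ) _ _ fun χ => rfl).symm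
  have hrows : ∀ χ : Du Z, rows Z A (chE Z hZ χ) = (Rw Z.subtype A χ).card := by
    intro χ
    unfold rows
    rw [Nat.card_eq_fintype_card, Fintype.card_subtype]
    congr 1
    ext k
    rw [mem_Rw]
    simp only [Finset.mem_filter, Finset.mem_univ, true_and]
    exact exists_congr fun j => part_ne Z hZ _ χ
  have hcols : ∀ χ : Du Z, columns Z A (chE Z hZ χ) = (Cl Z.subtype A χ).card := by
    intro χ
    unfold columns
    rw [Nat.card_eq_fintype_card, Fintype.card_subtype]
    congr 1
    ext k
    rw [mem_Cl]
    simp only [Finset.mem_filter, Finset.mem_univ, true_and]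
    exact exists_congr fun j => part_ne Z hZ _ χ
  have hup : ∀ t : (Z →* ℂ) → ℕ, (∀ χ, Staircase Z A χ (t χ)) →
      kerDim A ≤ (m : ℝ) - ((∑ᶠ χ, t χ : ℕ) : ℝ) / Nat.card Z := by
    intro t ht
    choose i j h1 h2 using ht
    have h := stair_upper Z.subtype hX hc hinj b hstab A (fun χ => t (chE Z hZ χ))
      (fun χ => i (chE Z hZ χ)) (fun χ => j (chE Z hZ χ))
      (fun χ s => (part_ne Z hZ _ χ).1 (h1 _ s))
      (fun χ s s' hs => by
        by_contra hne
        exact (part_ne Z hZ _ χ).2 hne (h2 _ s s' hs))
    rw [kerDim_eq, hsum, hcard]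
    rwa [Fintype.card_fin] at h
  have hlow : (m : ℝ) - ((∑ᶠ χ, min (rows Z A χ) (columns Z A χ) : ℕ) : ℝ) / Nat.card Z
      ≤ kerDim A := by
    have h := min_lower Z.subtype hc hinj (K := Fin m) (L := Fin n) A
    rw [kerDim_eq, hsum, hcard]
    rw [Fintype.card_fin] at h
    have e : ∀ χ : Du Z, min (rows Z A (chE Z hZ χ)) (columns Z A (chE Z hZ χ))
        = min (Rw Z.subtype A χ).card (Cl Z.subtype A χ).card := fun χ => by
      rw [hrows, hcols]
    rw [Finset.sum_congr rfl fun χ _ => e χ]
    exact h
  have hmain : (∀ χ, Staircase Z A χ (min (rows Z A χ) (columns Z A χ))) →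
      kerDim A = (m : ℝ) - ((∑ᶠ χ, min (rows Z A χ) (columns Z A χ) : ℕ) : ℝ) / Nat.card Z :=
    fun h => le_antisymm (hup _ h) hlow
  refine ⟨?_, hup, hlow, fun h => ⟨hmain h, ?_⟩, ?_⟩
  · intro H hH g hg
    rw [← hb]
    have hmono : ∀ (k : G) (x y : X), x < y → k • x < k • y := by
      intro k x y hxy
      refine lt_of_le_of_ne (hX k x y hxy.le) fun h => hxy.ne ?_
      exact MulAction.injective k h
    obtain ⟨k, hk, hgk'⟩ := isOfFinOrder_iff_pow_eq_one.1 (isOfFinOrder_of_finite (⟨g, hg⟩ : H))
    have hgk : g ^ k = 1 := congrArg Subtype.val hgk'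
    by_contra hne
    rcases lt_or_gt_of_ne hne with hlt | hlt
    · have h1 : ∀ l : ℕ, 0 < l → g ^ l • b < b := by
        intro l hl
        induction l with
        | zero => exact absurd hl (lt_irrefl 0)
        | succ l ih =>
          rcases Nat.eq_zero_or_pos l with rfl | h0
          · simpa using hlt
          · rw [pow_succ, mul_smul]
            exact (hmono _ _ _ hlt).trans (ih h0)
      have h2 := h1 k hk
      rw [hgk, one_smul] at h2
      exact lt_irrefl _ h2
    · have h1 : ∀ l : ℕ, 0 < l → b < g ^ l • b := by
        intro l hl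
        induction l with
        | zero => exact absurd hl (lt_irrefl 0)
        | succ l ih =>
          rcases Nat.eq_zero_or_pos l with rfl | h0
          · simpa using hlt
          · rw [pow_succ, mul_smul]
            exact (ih h0).trans (hmono _ _ _ hlt)
      have h2 := h1 k hk
      rw [hgk, one_smul] at h2
      exact lt_irrefl _ h2
  · intro d hd
    obtain ⟨e, rfl⟩ := hd Z inferInstance
    refine ⟨(e : ℤ) * ((Nat.card Z : ℤ) * n
      - (∑ᶠ χ, min (rows Z A χ) (columns Z A χ) : ℕ)), ?_⟩
    rw [hmain h]
    generalize (∑ᶠ χ, min (rows Z A χ) (columns Z A χ) : ℕ) = s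
    have hpos : (Nat.card Z : ℝ) ≠ 0 := by
      rw [hcard]
      exact Nat.cast_ne_zero.2 Fintype.card_ne_zero
    push_cast
    field_simp
    ring
  · intro hmn
    have hle : ∀ χ, min (rows Z A χ) (columns Z A χ)
        = if ∃ i j, part Z χ (A i j) ≠ 0 then 1 else 0 := by
      intro χ
      by_cases hex : ∃ i j, part Z χ (A i j) ≠ 0
      · rw [if_pos hex]
        obtain ⟨i, j, hij⟩ := hex
        have h1 : 0 < rows Z A χ := by
          unfold rows
          have : Nonempty {i : Fin m // ∃ j, part Z χ (A i j) ≠ 0} := ⟨⟨i, j, hij⟩⟩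
          exact Nat.card_pos
        have h2 : 0 < columns Z A χ := by
          unfold columns
          have : Nonempty {j : Fin n // ∃ i, part Z χ (A i j) ≠ 0} := ⟨⟨j, i, hij⟩⟩
          exact Nat.card_pos
        have h3 : rows Z A χ ≤ m := by
          unfold rows
          rw [Nat.card_eq_fintype_card, Fintype.card_subtype]
          exact (Finset.card_le_univ _).trans (by rw [Fintype.card_fin])
        have h4 : columns Z A χ ≤ n := by
          unfold columns
          rw [Nat.card_eq_fintype_card, Fintype.card_subtype]
          exact (Finset.card_le_univ _).trans (by rw [Fintype.card_fin])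
        omega
      · rw [if_neg hex]
        have h1 : rows Z A χ = 0 := by
          unfold rows
          have : IsEmpty {i : Fin m // ∃ j, part Z χ (A i j) ≠ 0} :=
            ⟨fun x => hex ⟨x.1, x.2⟩⟩
          exact Nat.card_of_isEmpty
        rw [h1]
        exact Nat.zero_min _
    have hst : ∀ χ, Staircase Z A χ (min (rows Z A χ) (columns Z A χ)) := by
      intro χ
      rw [hle χ]
      by_cases hex : ∃ i j, part Z χ (A i j) ≠ 0
      · rw [if_pos hex]
        obtain ⟨i, j, hij⟩ := hex
        refine ⟨fun _ => i, fun _ => j, fun _ => hij, fun s s' hs => ?_⟩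
        exact absurd hs (by rw [Subsingleton.elim s s']; exact lt_irrefl _)
      · rw [if_neg hex]
        exact ⟨Fin.elim0, Fin.elim0, fun s => s.elim0, fun s => s.elim0⟩
    refine ⟨hst, ?_⟩
    rw [hmain hst]
    congr 3
    have e1 : (∑ᶠ χ, min (rows Z A χ) (columns Z A χ) : ℕ)
        = ∑ χ : Z →* ℂ, if ∃ i j, part Z χ (A i j) ≠ 0 then 1 else 0 := by
      rw [finsum_eq_sum_of_fintype]
      exact Finset.sum_congr rfl fun χ _ => hle χ
    rw [e1, Nat.card_eq_fintype_card, Fintype.card_subtype, Finset.card_filter]

end Pool.Agent.Results.MP_54e5d7_al.CentralExtensions
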