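import Pool.Agent.Run7.h266.AZ.Mix

set_option autoImplicit false

universe u

noncomputable section

namespace Pool.Agent.Results.MP_54e5d7_al.MixingRows

/-- The kernel of right multiplication by the matrix `A` over the complex group ring, with rows
indexed by `K` and columns by `L`, on row vectors over `l2(G)`: all square-summable `x` with
`x A = 0`. -/
def kernel {G : Type u} [Group G] {K L : Type} [Fintype K] (A : K → L → (G →₀ ℂ)) :
    Set (lp (fun _ : K × G => ℂ) 2) :=
  {x | ∀ (j : L) (g : G), ∑ k : K, ∑ h ∈ (A k j).support, x (k, g * h⁻¹) * A k j h = 0}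

open Classical in
/-- The von Neumann dimension of that kernel: the sum over `i` of one minus the square of the
distance from the basis vector at `(i, 1)` to the kernel, that is, the sum of the squared lengths
of the projections of these vectors to the kernel. -/
def kerDim {G : Type u} [Group G] {K L : Type} [Fintype K] (A : K → L → (G →₀ ℂ)) : ℝ :=
  ∑ i : K, (1 - Metric.infDist
    (lp.single (E := fun _ : K × G => ℂ) 2 (i, (1 : G)) (1 : ℂ)) (kernel A) ^ 2)

/-- The von Neumann rank: the number of rows minus the dimension of the kernel. -/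
def rank {G : Type u} [Group G] {K L : Type} [Fintype K] (A : K → L → (G →₀ ℂ)) : ℝ :=
  Fintype.card K - kerDim A

open Classical in
/-- The set of all group elements which occur in the members of a finite family. -/
def occur {G : Type u} {k : ℕ} (C : Fin k → (G →₀ ℂ)) : Finset G :=
  Finset.univ.biUnion (fun a => (C a).support)

open Classical in
/-- The number of elements `x` of the finite set `S` such that `u x` is in `S`. -/
def rep {G : Type u} [Group G] (S : Finset G) (u : G) : ℕ := (S.filter (fun x => u * x ∈ S)).card

theorem single_inst {G : Type u} [Group G] {K : Type} (d1 d2 : DecidableEq (K × G)) (i : K) :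
    @lp.single (K × G) (fun _ => ℂ) _ d1 2 (i, (1 : G)) (1 : ℂ)
      = @lp.single (K × G) (fun _ => ℂ) _ d2 2 (i, (1 : G)) (1 : ℂ) := by
  rw [Subsingleton.elim d1 d2]

theorem rank_eq {G : Type u} [Group G] {K L : Type} [Fintype K] [Fintype L] [DecidableEq K]
    [DecidableEq L] (A : K → L → (G →₀ ℂ)) : rank A = Run7.h266.AZ.rkM A := by
  have h : kerDim A = W649.ZL.kerDimM A := by
    unfold kerDim W649.ZL.kerDimM
    refine Finset.sum_congr rfl fun i _ => ?_
    exact congrArg (fun v => 1 - Metric.infDist v (kernel A) ^ 2) (single_inst _ _ i)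
  rw [Run7.h266.AZ.rkM_eq, ← h]
  rfl

theorem quo_mem {G : Type u} [Group G] (S : Finset G) (u : G) (hu : u ∈ Run7.h266.AZ.quo S) :
    u ≠ 1 := Run7.h266.AZ.quo_ne_one S u hu

/-- **The rank of a matrix over a group ring: mixing of rows, and the number of terms.** Let `G`
be any group and let `K`, `L` be finite sets.

1. Let `H` be a subgroup of `G` and let `B` be a matrix over the complex group ring of `H` (a matrix
   over that of `G` with entries supported in `H`) with `κ |K|` rows, indexed by the pairs
   `(k, i)`. Let `τ (k, i)` be elements of `G` such that for each `k` the left cosets `τ (k, i) H`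
   are distinct, and let `A` be the matrix with the `|K|` rows
   `∑ i, τ (k, i) B (k, i)`. Then `rank A ≤ rank B ≤ κ rank A`.
2. If `d · rank B` is an integer for all matrices `B` over the complex group ring of `H` (the Atiyah
   conjecture for `H`), then `d · κ · rank A ≥ 1` for the matrices `A ≠ 0` of this form.
3. If some row of `A` has `k ≥ 1` linearly independent (over `ℂ`) entries in which only `n` group
   elements occur, then the dimension of the kernel is at most `|K| - k / n`; it is at most
   `|K| - 1 + (1 - 1/n) (1 - k/n)` if each element `u ≠ 1` of finite order is the quotient of at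
   most `n k (n - 1) / (n k + n - k)` pairs of these group elements. -/
theorem result {G : Type u} [Group G] {K L : Type} [Fintype K] [Fintype L] :
    (∀ (H : Subgroup G) (κ : ℕ) (τ : K → Fin κ → G),
      (∀ k i i', (τ k i)⁻¹ * τ k i' ∈ H → i = i') →
      ∀ (A : K → L → (G →₀ ℂ)) (B : K × Fin κ → L → (G →₀ ℂ)),
      (∀ c l, ∀ x ∈ (B c l).support, x ∈ H) →
      (∀ k l x, A k l x = ∑ i, B (k, i) l ((τ k i)⁻¹ * x)) →
      (rank A ≤ rank B ∧ rank B ≤ κ * rank A) ∧
      (∀ d : ℕ, (∀ (C : K × Fin κ → L → (G →₀ ℂ)), (∀ c l, ∀ x ∈ (C c l).support, x ∈ H) →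
        ∃ z : ℤ, d * rank C = z) → 0 < d → A ≠ 0 → 1 ≤ d * κ * rank A)) ∧
    (∀ (A : K → L → (G →₀ ℂ)) (i : K) (k n : ℕ) (c : Fin k → L), 0 < k →
      LinearIndependent ℂ (fun a => A i (c a)) → n = (occur (fun a => A i (c a))).card →
      kerDim A ≤ Fintype.card K - (k : ℝ) / n ∧
      ((∀ u : G, u ≠ 1 → IsOfFinOrder u →
        (n * k + (n - k)) * rep (occur (fun a => A i (c a))) u ≤ n * k * (n - 1)) →
        kerDim A ≤ Fintype.card K - 1 + (1 - 1 / (n : ℝ)) * (1 - k / n))) := by
  classical
  refine ⟨?_, ?_⟩
  · intro H κ τ hτ A B hB hA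
    have h := Run7.h266.AZ.mixing H τ hτ A B hB hA
    rw [← rank_eq, ← rank_eq] at h
    refine ⟨h, ?_⟩
    intro d hd hd0 hA0
    obtain ⟨z, hz⟩ := hd B hB
    have hpos : 0 < rank A := by
      rw [rank_eq]
      by_contra hcon
      push Not at hcon
      apply hA0
      have h0 : Run7.h266.AZ.rkM A = 0 := le_antisymm hcon (W649.ZL.vd_nonneg _)
      funext k l
      by_contra hne
      have hne' : A k l ≠ 0 := hne
      have hli : LinearIndependent ℂ (fun _ : Fin 1 => A k l) := by
        rw [Fintype.linearIndependent_iff]
        intro g hg a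
        rw [Fin.sum_univ_one] at hg
        rcases smul_eq_zero.1 hg with h1 | h1
        · rwa [Subsingleton.elim a 0]
        · exact absurd h1 hne'
      have hk := (Run7.h266.AZ.row_bound A k 1 one_pos (fun _ => l) hli (A k l).support
        (fun _ => subset_rfl)).2.2
      rw [h0, sub_zero, mul_one, Nat.cast_one] at hk
      linarith
    have hzpos : 0 < z := by
      have h1 : 0 < (d : ℝ) * rank B :=
        mul_pos (by exact_mod_cast hd0) (hpos.trans_le h.1)
      rw [hz] at h1
      exact_mod_cast h1
    have hz1 : (1 : ℝ) ≤ z := by exact_mod_cast hzpos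
    calc (1 : ℝ) ≤ z := hz1
      _ = d * rank B := hz.symm
      _ ≤ d * (κ * rank A) := mul_le_mul_of_nonneg_left h.2 (Nat.cast_nonneg d)
      _ = _ := by ring
  · intro A i k n c hk0 hC hn
    have hS : ∀ a, (A i (c a)).support ⊆ occur (fun a => A i (c a)) := by
      intro a x hx
      unfold occur
      exact Finset.mem_biUnion.2 ⟨a, Finset.mem_univ a, hx⟩
    have h := Run7.h266.AZ.row_bound A i k hk0 c hC (occur (fun a => A i (c a))) hS
    have h1 := h.2.2
    rw [← hn, ← rank_eq] at h1
    have hkn := h.1
    rw [← hn] at hkn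
    have hn0 : (0 : ℝ) < n := by exact_mod_cast hk0.trans_le hkn
    have hrank : kerDim A = Fintype.card K - rank A := by
      unfold rank
      ring
    refine ⟨?_, ?_⟩
    · have h2 : 1 - rank A ≤ ((n : ℝ) - k) / n := by
        rw [le_div_iff₀ hn0]
        linarith
      have h3 : ((n : ℝ) - k) / n = 1 - k / n := by field_simp
      rw [hrank]
      linarith
    · intro hfin
      have h5 := h.2.1 (fun u hu hu' => by
          rw [← hn]
          have h4 := hfin u (quo_mem _ u hu) hu'
          exact h4)
      rw [← hn, ← rank_eq] at h5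
      have h2 : (1 - 1 / (n : ℝ)) * (1 - k / n) = ((n : ℝ) - 1) * (n - k) / (n : ℝ) ^ 2 := by
        field_simp
      have h3 : 1 - rank A ≤ ((n : ℝ) - 1) * (n - k) / (n : ℝ) ^ 2 := by
        rw [le_div_iff₀ (by positivity)]
        linarith
      rw [h2, hrank]
      linarith

end Pool.Agent.Results.MP_54e5d7_al.MixingRows
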