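import Pool.Agent.Run7.h917.LW.Mat
import Pool.Agent.Run7.h917.HG.TreeFin

set_option autoImplicit false

open scoped Pointwise

universe u

noncomputable section

namespace Pool.Agent.Results.MP_54e5d7_al.SmallRankTorsion

/-- The kernel of right multiplication by the matrix `A` over the complex group ring, with rows
indexed by `K` and columns by `L`, on row vectors over `l2(G)`: all square-summable `x` with
`x A = 0`. -/
def kernel {G : Type u} [Group G] {K L : Type} [Fintype K] (A : K → L → (G →₀ ℂ)) :
    Set (lp (fun _ : K × G => ℂ) 2) :=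
  {x | ∀ (j : L) (g : G), ∑ k : K, ∑ h ∈ (A k j).support, x (k, g * h⁻¹) * A k j h = 0}

open Classical in
/-- The von Neumann dimension of that kernel: the sum over `i` of one minus the square of the
distance from the basis vector at `(i, 1)` to the kernel, that is, the sum of the squared lengths
of the projections of these vectors to the kernel. -/
def kerDim {G : Type u} [Group G] {K L : Type} [Fintype K] (A : K → L → (G →₀ ℂ)) : ℝ :=
  ∑ i : K, (1 - Metric.infDist
    (lp.single (E := fun _ : K × G => ℂ) 2 (i, (1 : G)) (1 : ℂ)) (kernel A) ^ 2)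

/-- The von Neumann rank: the number of rows minus the dimension of the kernel. -/
def rank {G : Type u} [Group G] {K L : Type} [Fintype K] (A : K → L → (G →₀ ℂ)) : ℝ :=
  Fintype.card K - kerDim A

/-- The square of the norm of `α` in `ℓ²(G)`. -/
def normSq {G : Type u} (α : G →₀ ℂ) : ℝ := ∑ g ∈ α.support, ‖α g‖ ^ 2

/-- Among any more than `B` elements of `G` there are two with a quotient of infinite order. -/
def Few (B : ℕ) (G : Type u) [Group G] : Prop :=
  ∀ X : Finset G, B < X.card → ∃ a ∈ X, ∃ b ∈ X, ¬ IsOfFinOrder (a⁻¹ * b)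

/-- The Cayley graph of `G`: `a` and `b` are adjacent if they are different and `a⁻¹ b` or `b⁻¹ a`
is in `S`. -/
def cayley {G : Type u} [Group G] (S : Finset G) : SimpleGraph G :=
  SimpleGraph.fromRel fun a b : G => a⁻¹ * b ∈ S

/-- `G` is generated by `S` and is hyperbolic in the sense of Gromov: the path metric `d` of the
Cayley graph satisfies the four point condition
`d(x, y) + d(z, w) ≤ max (d(x, z) + d(y, w), d(x, w) + d(y, z)) + 2 δ`. -/
def Hyperbolic {G : Type u} [Group G] (δ : ℕ) (S : Finset G) : Prop :=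
  Subgroup.closure (S : Set G) = ⊤ ∧ ∀ x y z w : G,
    (cayley S).dist x y + (cayley S).dist z w ≤
      max ((cayley S).dist x z + (cayley S).dist y w)
        ((cayley S).dist x w + (cayley S).dist y z) + 2 * δ

/-- `G` acts on the graph `T` by automorphisms; `T` is connected and its path metric `d` is that of
a tree: `d(x, y) + d(z, w) ≤ max (d(x, z) + d(y, w), d(x, w) + d(y, z))`; and each vertex is moved by
an even distance by each element of `G` (if `G` acts on a tree, it acts so on the barycentric
subdivision). -/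
def EvenTreeAction (G : Type u) [Group G] {V : Type u} [MulAction G V] (T : SimpleGraph V) : Prop :=
  (∀ (g : G) x y, T.Adj x y → T.Adj (g • x) (g • y)) ∧ T.Connected ∧
  (∀ x y z w : V, T.dist x y + T.dist z w ≤
    max (T.dist x z + T.dist y w) (T.dist x w + T.dist y z)) ∧
  ∀ (g : G) x, Even (T.dist x (g • x))

/-- The places `(i_a, j_a)` form a triangular pattern of `A`. -/
def Triangular {G : Type u} {K L : Type} (A : K → L → (G →₀ ℂ)) {p : ℕ} (i : Fin p → K)
    (j : Fin p → L) : Prop := ∀ a b, a < b → A (i a) (j b) = 0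

theorem single_inst {G : Type u} [Group G] {K : Type} (d1 d2 : DecidableEq (K × G)) (i : K) :
    @lp.single (K × G) (fun _ => ℂ) _ d1 2 (i, (1 : G)) (1 : ℂ)
      = @lp.single (K × G) (fun _ => ℂ) _ d2 2 (i, (1 : G)) (1 : ℂ) := by
  rw [Subsingleton.elim d1 d2]

theorem rank_eq {G : Type u} [Group G] {K L : Type} [Fintype K] [Fintype L] [DecidableEq K]
    [DecidableEq L] (A : K → L → (G →₀ ℂ)) : rank A = Run7.h266.AZ.rkM A := by
  have h : kerDim A = W649.ZL.kerDimM A := by
    unfold kerDim W649.ZL.kerDimM
    refine Finset.sum_congr rfl fun i _ => ?_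
    exact congrArg (fun v => 1 - Metric.infDist v (kernel A) ^ 2) (single_inst _ _ i)
  rw [Run7.h266.AZ.rkM_eq, ← h]
  rfl

/-- **Matrices of small rank and elements of finite order.**

1. For all `C`, `k`, `B` there is `N` such that for every group `G` and every matrix `A` over its
   complex group ring: let `(i_a, j_a)` be places such that the entries at `(i_a, j_b)` are zero
   for `a < b`, and let the entry `α_a` at `(i_a, j_a)` have at least `N` terms, all of absolute
   value at least `μ_a`. Then the rank of `A` is at least `∑ C μ_a² / ‖α_a‖²`, or the support of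
   some `α_a` contains `X (X⁻¹ X) ^ k y`, where `y` is in `G`, `X` has `B` elements and each
   product of `k` elements of `X⁻¹ X` is of finite order.
2. For all `C`, `B` there is `N` such that for every group `G` in which any more than `B` elements
   contain two with a quotient of infinite order, every `A` and every pattern as in 1.: the rank
   of `A` is at least `∑ C μ_a² / ‖α_a‖²`.
3. This property of `G` holds if `G` has a torsion-free subgroup of index at most `B`.
4. It holds with `B = (2 s + 1) ^ (40 δ + 8)` if `G` is `δ`-hyperbolic with at most `s` generators.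
5. If the kernel of a homomorphism from `G` to `H` has the property with `A` and `H` has it with
   `B`, then `G` has it with `A B`.
6. If `G` acts on a tree and all vertex stabilizers have the property with `B`, then `G` has it
   with `B`. -/
theorem result :
    (∀ (C : ℝ) (k B : ℕ), ∃ N : ℕ, ∀ (G : Type u) [Group G] (K L : Type) [Fintype K] [Fintype L]
      (A : K → L → (G →₀ ℂ)) (p : ℕ) (i : Fin p → K) (j : Fin p → L) (μ : Fin p → ℝ),
      Triangular A i j → (∀ a, 0 ≤ μ a) →
      (∀ a, ∀ g ∈ (A (i a) (j a)).support, μ a ≤ ‖A (i a) (j a) g‖) →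
      (∀ a, N ≤ (A (i a) (j a)).support.card) →
      ∑ a, C * μ a ^ 2 / normSq (A (i a) (j a)) ≤ rank A ∨
      ∃ a, ∃ X : Finset G, X.card = B ∧ ∃ y : G, ∀ w ∈ ((X : Set G)⁻¹ * (X : Set G)) ^ k,
        IsOfFinOrder w ∧ ∀ x ∈ X, x * w * y ∈ (A (i a) (j a)).support) ∧
    (∀ (C : ℝ) (B : ℕ), ∃ N : ℕ, ∀ (G : Type u) [Group G], Few B G →
      ∀ (K L : Type) [Fintype K] [Fintype L]
      (A : K → L → (G →₀ ℂ)) (p : ℕ) (i : Fin p → K) (j : Fin p → L) (μ : Fin p → ℝ),
      Triangular A i j → (∀ a, 0 ≤ μ a) →
      (∀ a, ∀ g ∈ (A (i a) (j a)).support, μ a ≤ ‖A (i a) (j a) g‖) →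
      (∀ a, N ≤ (A (i a) (j a)).support.card) →
      ∑ a, C * μ a ^ 2 / normSq (A (i a) (j a)) ≤ rank A) ∧
    (∀ (B : ℕ) (G : Type u) [Group G] (P : Subgroup G), P.index ≠ 0 → P.index ≤ B →
      (∀ g ∈ P, IsOfFinOrder g → g = 1) → Few B G) ∧
    (∀ (δ s : ℕ) (G : Type u) [Group G] (S : Finset G), S.card ≤ s → Hyperbolic δ S →
      Few ((2 * s + 1) ^ (40 * δ + 8)) G) ∧
    (∀ (A B : ℕ) (G H : Type u) [Group G] [Group H] (f : G →* H), Few A f.ker → Few B H →
      Few (A * B) G) ∧
    (∀ (B : ℕ) (G V : Type u) [Group G] [MulAction G V] (T : SimpleGraph V), EvenTreeAction G T →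
      (∀ x : V, Few B (MulAction.stabilizer G x)) → Few B G) := by
  classical
  refine ⟨fun C k B => ?_, fun C B => ?_, fun B G _ P h0 hB h =>
    Run7.h917.LW.few_of_index G P B h0 hB h, fun δ s G _ S hs hH =>
    Run7.h917.HG.few_of_hyperbolic hH hs, fun A B G H _ _ f hf hH =>
    Run7.h917.HG.few_ext f hf hH, fun B G V _ _ T hT hB => ?_⟩
  · obtain ⟨N, hN⟩ := Run7.h917.LW.mat_general.{u} C k B
    refine ⟨N, fun G _ K L _ _ A p i j μ htri hμ hA hcard => ?_⟩
    rw [rank_eq]
    exact hN G K L A p i j μ htri hμ hA hcard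
  · obtain ⟨N, hN⟩ := Run7.h917.LW.mat_few.{u} C B
    refine ⟨N, fun G _ hG K L _ _ A p i j μ htri hμ hA hcard => ?_⟩
    rw [rank_eq]
    exact hN G hG K L A p i j μ htri hμ hA hcard
  · have : Nonempty V := hT.2.1.nonempty
    exact Run7.h917.HG.few_tree
      (Run7.h917.HG.treeMetric hT.2.1 hT.1 hT.2.2.1 hT.2.2.2) hB

end Pool.Agent.Results.MP_54e5d7_al.SmallRankTorsion
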